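import Pool.Agent.PLY.T2.Defs
import Pool.Agent.HHP.Tsum

/-!
Project PLZ (MP_8c6f77_pr, polynomial bound, ROUTE A): DECOUPLING (`Sys.dec`). Abstract over `S : Sys`, `R : S.Rts`.

PAPER PROOF. `U y` = mass of the words `P` with `h P ≤ y` (`Alph.tsum_le`). For a word `P`, `h P ≤ y`, and a block `c` with `rt τ M y [c]` the leg `L = P ++ [c]` has
`rt τ (M + h P) (y + h P) L` (`shf`), so `rt τ M (2 y) L` (`mono`). `cut` for `z = 2 y` maps the legs `L` injectively to triples `(p1, p2, p3)` with `w L ≤ w p1 w p2 w p3`. A proper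
prefix `q` of `p3` of height `≥ h p2 + d τ` would give (field `ren`) a prefix `q'` of `P ++ [c]` with `h P ≤ y < M ≤ h p1 ≤ h q' < h L`: impossible. So `FP (h p2 + d τ) p3`.
-/

namespace Pool.Agent.HEP

open Pool.Agent.HHP
open scoped ENNReal

namespace Sys

variable {S : Sys}

/-- Comparison of sums by a map which is injective on the support. -/
private lemma tsum_ind_inj {α β : Type} (A : α → Prop) (g : α → ℝ≥0∞) (G : β → ℝ≥0∞) (ψ : α → β)
    (h1 : ∀ x x', A x → A x' → ψ x = ψ x' → x = x') (h2 : ∀ x, A x → g x ≤ G (ψ x)) :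
    ∑' x, ind (A x) * g x ≤ ∑' t, G t := by
  classical
  have e : ∑' x, ind (A x) * g x = ∑' x : {x // A x}, g x.1 := by
    rw [← tsum_subtype_eq_of_support_subset (f := fun x => ind (A x) * g x) (s := {x | A x})]
    · refine tsum_congr fun x => ?_
      have hx : A x.1 := x.2
      change ind (A x.1) * g x.1 = g x.1
      rw [ind_true hx, one_mul]
    · intro x hx
      by_contra h
      have h' : ¬ A x := h
      refine hx ?_
      change ind (A x) * g x = 0
      rw [ind_false h', zero_mul]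
  rw [e]
  refine tsum_rel (fun x : {x // A x} => g x.1) G (fun x t => ψ x.1 = t) ?_ ?_
  · intro x
    exact ⟨_, rfl, h2 x.1 x.2⟩
  · intro x x' t h3 h4
    exact Subtype.ext (h1 x.1 x'.1 x.2 x'.2 (h3.trans h4.symm))

/-- The triples of `R3`. -/
private def Tr (S : Sys) (τ : Bool) (y M : ℕ) (p1 p2 p3 : List S.B) : Prop :=
  S.av τ p2 p1.reverse ∧ S.av τ p3 p2.reverse ∧ M ≤ S.h p1 ∧ S.h p1 ≤ S.h p2 + 2 * y + 1 ∧
    S.h p2 + d (!τ) ≤ S.h p1 ∧ S.h p2 + d τ ≤ S.h p3 ∧ (S.FP (S.h p2) p3 ∨ S.FP (S.h p2 + 1) p3)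

private lemma tr_of (R : S.Rts) {τ : Bool} {y M : ℕ} (hy : 2 * y < M) {P : List S.B} {c : S.B} (hP : S.h P ≤ y)
    {p1 p2 p3 : List S.B} (h : S.Cut3 τ M (2 * y) (P ++ [c]) p1 p2 p3) : Tr S τ y M p1 p2 p3 := by
  refine ⟨h.av1, h.av2, h.h1, h.h2, h.h3, h.h6, ?_⟩
  have key : S.FP (S.h p2 + d τ) p3 := by
    refine ⟨h.h6, ?_⟩
    intro q a r e
    by_contra hcon
    obtain ⟨q', r', e1, e2⟩ := h.ren q (a :: r) e (not_lt.1 hcon)
    have h1 : M ≤ S.h q' := by
      have := h.h1
      have hq : S.h p2 ≤ S.h q := by omega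
      omega
    -- `q'` is longer than `P`, so it is everything
    have h2 : r' = [] := by
      rcases List.append_eq_append_iff.1 e1 with ⟨u, h3, h4⟩ | ⟨u, h3, h4⟩
      · -- `q' = P ++ u`, `[c] = u ++ r'`
        cases u with
        | nil =>
          rw [List.append_nil] at h3
          rw [h3] at h1
          omega
        | cons b u =>
          rw [List.cons_append, List.cons.injEq] at h4
          exact (List.append_eq_nil_iff.1 h4.2.symm).2
      · -- `P = q' ++ u`
        rw [h3, S.h_append] at hP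
        omega
    subst h2
    rw [List.append_nil] at e1
    have h3 := h.hL
    rw [e1] at h3
    have h4 : S.h p3 = S.h q := by omega
    rw [e, S.h_append, S.h_cons] at h4
    have := S.ht_pos a
    omega
  cases τ
  · exact Or.inl key
  · exact Or.inr key

/-- DECOUPLING. -/
theorem dec (R : S.Rts) (τ : Bool) (y M : ℕ) (hy : 2 * y < M) :
    S.U y * ∑' c, ind (R.rt τ M y [c]) * S.wt c ≤ S.R3 τ y M := by
  classical
  obtain ⟨φ, hinj, hφ⟩ := R.cut τ M (2 * y) hy
  have hrt : ∀ (P : List S.B) (c : S.B), S.h P ≤ y → R.rt τ M y [c] → R.rt τ M (2 * y) (P ++ [c]) := by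
    intro P c hP hc
    have h1 : R.rt τ (M + S.h P) (y + S.h P) (P ++ [c]) := by
      rw [R.shf τ (M + S.h P) (y + S.h P) P [c] (by omega) (by omega), Nat.add_sub_cancel, Nat.add_sub_cancel]
      exact hc
    exact R.mono τ _ _ _ _ _ (Nat.le_add_right _ _) (by omega) h1
  rw [← S.tsum_le y, ← ENNReal.tsum_mul_right]
  calc ∑' P, ind (S.h P ≤ y) * S.w P * ∑' c, ind (R.rt τ M y [c]) * S.wt c
      = ∑' q : List S.B × S.B, ind (S.h q.1 ≤ y ∧ R.rt τ M y [q.2]) * (S.w q.1 * S.wt q.2) := by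
        rw [ENNReal.tsum_prod']
        refine tsum_congr fun P => ?_
        rw [← ENNReal.tsum_mul_left]
        refine tsum_congr fun c => ?_
        rw [ind_and]
        ring
    _ ≤ ∑' t : List S.B × List S.B × List S.B, ind (Tr S τ y M t.1 t.2.1 t.2.2) * (S.w t.1 * (S.w t.2.1 * S.w t.2.2)) := by
        refine tsum_ind_inj _ _ _ (fun q : List S.B × S.B => φ (q.1 ++ [q.2])) ?_ ?_
        · rintro ⟨P, c⟩ ⟨P', c'⟩ ⟨h1, h2⟩ ⟨h3, h4⟩ h5
          have h6 := hinj (hrt P c h1 h2) (hrt P' c' h3 h4) h5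
          obtain ⟨rfl, h7⟩ := List.append_inj' h6 rfl
          rw [List.cons.injEq] at h7
          rw [h7.1]
        · rintro ⟨P, c⟩ ⟨h1, h2⟩
          have h3 := hφ (P ++ [c]) (hrt P c h1 h2)
          rw [ind_true (tr_of R hy h1 h3), one_mul]
          refine le_trans (le_of_eq ?_) h3.wL
          rw [S.w_append, S.w_cons, S.w_nil, mul_one]
    _ = S.R3 τ y M := by
        unfold R3 Tr
        rw [ENNReal.tsum_prod']
        refine tsum_congr fun p1 => ?_
        rw [ENNReal.tsum_prod']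

end Sys

end Pool.Agent.HEP
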