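import Pool.Agent.PLZ.RCut

/-!
Project PLZ (MP_8c6f77_pr, polynomial bound, ROUTE A): the returns of the legs of the honeycomb lattice satisfy the abstract interface `Sys.Rts`
(`hsI_R : hsI.Rts`), from `cut_l` (RCut) and the planarity `pz1`, `pz2` (Pz).
-/

namespace Pool.Agent.HEP

open Pool.Agent.Hhelper14.SAW Pool.Agent.HHP
open scoped ENNReal

/-- Vertices of a concatenation. -/
private lemma RI_V {l r : List Blk} (hl : l ≠ []) (hr : r ≠ []) :
    V (jn (l ++ r)) = V (jn l) ++ (V (jn r)).map (fun z => (E (jn l) + (1, 0)) + z) ∧ F0 (E (jn l) + (1, 0)) = 3 * (hj l : ℤ) := by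
  have hX := jn_Br hl
  refine ⟨?_, ?_⟩
  · rw [jn_append hl hr]
    exact (app_right hX.tn_rt).1
  · rw [F0_add, hX.2]
    have := hj_pos hl
    simp only [F0]
    omega

private lemma RI_lo {l : List Blk} {x : ℤ × ℤ} (hl : l ≠ []) (hx : x ∈ V (jn l)) : 0 ≤ F0 x ∧ F0 x ≤ 3 * (hj l : ℤ) - 2 := by
  have h := (jn_Br hl).1.2 x hx
  have := hj_pos hl
  omega

private lemma RI_rev {l : List Blk} (hl : l ≠ []) : l.reverse ≠ [] ∧ hj l.reverse = hj l :=
  ⟨by simpa using hl, hsI.h_reverse l⟩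

private lemma RI_nil (σ : Bool) (M z : ℕ) : ¬ rtI σ M z [] := by
  unfold rtI
  cases σ <;> simp [jn, V, vs]

private lemma rtI_t {M z : ℕ} {l : List Blk} : rtI true M z l ↔
    ¬ (V (jn l.reverse)).Pairwise fun q p => ¬ (3 * ((hj l : ℤ) - 1 - z) ≤ F0 q ∧ F0 p ≤ 3 * ((hj l : ℤ) - 1 - M) + 1) := by
  unfold rtI; rw [if_pos rfl]

private lemma rtI_f {M z : ℕ} {l : List Blk} : rtI false M z l ↔
    ¬ (V (jn l)).Pairwise fun p q => ¬ (3 * (M : ℤ) ≤ F0 p ∧ F0 q ≤ 3 * (z : ℤ) + 1) := by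
  unfold rtI; rw [if_neg (by simp)]

lemma rtI_mono (σ : Bool) (M M' z z' : ℕ) (l : List Blk) (h1 : M' ≤ M) (h2 : z ≤ z') (h : rtI σ M z l) : rtI σ M' z' l := by
  cases σ
  · rw [rtI_f] at h ⊢
    refine fun h' => h (h'.imp ?_)
    rintro a b h3 ⟨h4, h5⟩
    exact h3 ⟨by omega, by omega⟩
  · rw [rtI_t] at h ⊢
    refine fun h' => h (h'.imp ?_)
    rintro a b h3 ⟨h4, h5⟩
    exact h3 ⟨by omega, by omega⟩

private lemma RI_pw {L : List (ℤ × ℤ)} {R : ℤ × ℤ → ℤ × ℤ → Prop} (h : ∀ x ∈ L, ∀ y ∈ L, R x y) : L.Pairwise R := by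
  induction L with
  | nil => exact List.Pairwise.nil
  | cons a L ih =>
    refine List.pairwise_cons.2 ⟨fun y hy => h a List.mem_cons_self y (List.mem_cons_of_mem _ hy), ih fun x hx y hy => ?_⟩
    exact h x (List.mem_cons_of_mem _ hx) y (List.mem_cons_of_mem _ hy)

lemma rtI_top (σ : Bool) (M z : ℕ) (l : List Blk) (h : hj l ≤ M) : ¬ rtI σ M z l := by
  by_cases hl : l = []
  · subst hl; exact RI_nil σ M z
  cases σ
  · rw [rtI_f, not_not]
    refine RI_pw fun x hx y _ => ?_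
    rintro ⟨h1, -⟩
    have := (RI_lo hl hx).2
    omega
  · rw [rtI_t, not_not]
    refine RI_pw fun x _ y hy => ?_
    rintro ⟨-, h1⟩
    have := (RI_lo (RI_rev hl).1 hy).1
    omega

lemma rtI_pre (σ : Bool) (M z : ℕ) (l r : List Blk) (hz : z < M) (h : z < hj l) : rtI σ M z (l ++ r) ↔ rtI σ M z l := by
  by_cases hr : r = []
  · subst hr; rw [List.append_nil]
  have hl : l ≠ [] := by
    rintro rfl
    rw [hj_nil] at h
    omega
  cases σ
  · rw [rtI_f, rtI_f]
    obtain ⟨e1, e2⟩ := RI_V hl hr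
    rw [e1, List.pairwise_append]
    refine not_congr ⟨fun h => h.1, fun h' => ⟨h', ?_, ?_⟩⟩
    · refine RI_pw fun x _ y hy => ?_
      rintro ⟨-, h3⟩
      obtain ⟨w, hw, rfl⟩ := List.mem_map.1 hy
      rw [F0_add, e2] at h3
      have := (RI_lo hr hw).1
      omega
    · intro x _ y hy
      rintro ⟨-, h3⟩
      obtain ⟨w, hw, rfl⟩ := List.mem_map.1 hy
      rw [F0_add, e2] at h3
      have := (RI_lo hr hw).1
      omega
  · rw [rtI_t, rtI_t]
    obtain ⟨e1, e2⟩ := RI_V (RI_rev hr).1 (RI_rev hl).1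
    rw [List.reverse_append, e1, List.pairwise_append, List.pairwise_map]
    rw [(RI_rev hr).2] at e2
    have hh := hj_append l r
    refine not_congr ⟨fun h' => h'.2.1.imp ?_, fun h' => ⟨?_, h'.imp ?_, ?_⟩⟩
    · rintro a b h3 ⟨h4, h5⟩
      refine h3 ⟨?_, ?_⟩
      · rw [F0_add, e2]; omega
      · rw [F0_add, e2]; omega
    · refine RI_pw fun x hx y _ => ?_
      rintro ⟨h3, -⟩
      have := (RI_lo (RI_rev hr).1 hx).2
      rw [(RI_rev hr).2] at this
      omega
    · rintro a b h3 ⟨h4, h5⟩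
      rw [F0_add, e2] at h4 h5
      exact h3 ⟨by omega, by omega⟩
    · intro x hx y _
      rintro ⟨h3, -⟩
      have := (RI_lo (RI_rev hr).1 hx).2
      rw [(RI_rev hr).2] at this
      omega

lemma rtI_shf (σ : Bool) (M z : ℕ) (l s : List Blk) (hz : z < M) (h : hj l ≤ z) :
    rtI σ M z (l ++ s) ↔ rtI σ (M - hj l) (z - hj l) s := by
  by_cases hs : s = []
  · subst hs
    rw [List.append_nil]
    exact ⟨fun h' => absurd h' (rtI_top σ M z l (by omega)), fun h' => absurd h' (RI_nil σ _ _)⟩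
  by_cases hl : l = []
  · subst hl
    rw [hj_nil, List.nil_append, Nat.sub_zero, Nat.sub_zero]
  have hh := hj_append l s
  cases σ
  · rw [rtI_f, rtI_f]
    obtain ⟨e1, e2⟩ := RI_V hl hs
    rw [e1, List.pairwise_append, List.pairwise_map]
    refine not_congr ⟨fun h' => h'.2.1.imp ?_, fun h' => ⟨?_, h'.imp ?_, ?_⟩⟩
    · rintro a b h3 ⟨h4, h5⟩
      refine h3 ⟨?_, ?_⟩
      · rw [F0_add, e2]; omega
      · rw [F0_add, e2]; omega
    · refine RI_pw fun x hx y _ => ?_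
      rintro ⟨h3, -⟩
      have := (RI_lo hl hx).2
      omega
    · rintro a b h3 ⟨h4, h5⟩
      rw [F0_add, e2] at h4 h5
      exact h3 ⟨by omega, by omega⟩
    · intro x hx y _
      rintro ⟨h3, -⟩
      have := (RI_lo hl hx).2
      omega
  · rw [rtI_t, rtI_t]
    obtain ⟨e1, e2⟩ := RI_V (RI_rev hs).1 (RI_rev hl).1
    rw [List.reverse_append, e1, List.pairwise_append]
    rw [(RI_rev hs).2] at e2
    refine not_congr ⟨fun h' => h'.1.imp ?_, fun h' => ⟨h'.imp ?_, ?_, ?_⟩⟩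
    · rintro a b h3 ⟨h4, h5⟩
      exact h3 ⟨by omega, by omega⟩
    · rintro a b h3 ⟨h4, h5⟩
      exact h3 ⟨by omega, by omega⟩
    · refine RI_pw fun x _ y hy => ?_
      rintro ⟨-, h3⟩
      obtain ⟨w, hw, rfl⟩ := List.mem_map.1 hy
      rw [F0_add, e2] at h3
      have := (RI_lo (RI_rev hl).1 hw).1
      omega
    · intro x _ y hy
      rintro ⟨-, h3⟩
      obtain ⟨w, hw, rfl⟩ := List.mem_map.1 hy
      rw [F0_add, e2] at h3
      have := (RI_lo (RI_rev hl).1 hw).1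
      omega

lemma rtI_os (σ : Bool) (M z : ℕ) (l s s' : List Blk) (hz : z < M) (h : hsI.av σ l (s ++ s')) (hr : ¬ rtI σ M z l)
    (h1 : M + 1 ≤ hj (s ++ s')) (h2 : hj s + 1 ≤ z) (h3 : hj s ≤ hj l - Sys.d σ) : hsI.os σ 1 l s := by
  cases σ
  · rw [rtI_f, not_not] at hr
    exact pz2 hz h hr h1 (by omega) (by simpa [Sys.d] using h3)
  · rw [rtI_t, not_not] at hr
    by_cases hs : hj s = 0
    · left
      exact hsI.h_eq_zero.1 hs
    rw [Sys.d_true] at h3
    refine pz1 (z := z - 1) (e := M - 1) (by omega) h ?_ (by omega) (by omega) (by omega)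
    unfold NR1
    refine hr.imp ?_
    rintro a b h4 ⟨h5, h6⟩
    exact h4 ⟨by omega, by omega⟩


private lemma RI_pre' (W r : List Bool) (h : (V (W ++ r)).Nodup) : (V W).Nodup := by
  cases r with
  | nil => rwa [List.append_nil] at h
  | cons b r =>
    rw [V_append] at h
    exact (List.nodup_append.1 h).1

/-- The two folds of a double fold word. -/
private lemma RI_two {a b : ℕ} {X Y Z : List Bool} (hX : Br a X) (hY : Br b Y) (h : (V (fw X (fw Y Z))).Nodup) :
    (V (fw X Y)).Nodup ∧ (V (fw Y Z)).Nodup := by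
  constructor
  · have e : fw X (fw Y Z) = fw X Y ++ ((!rt Y) :: lt (Y ++ [!rt Y]) :: Z) := by
      unfold fw; simp
    rw [e] at h
    exact RI_pre' _ _ h
  · rw [(fw_V hX _).1] at h
    have h1 := (List.nodup_append.1 h).2.1
    exact List.Nodup.of_map _ (List.nodup_cons.1 h1).2

private lemma RI_len (X Y Z : List Bool) : xE ^ ((fw X (fw Y Z)).length + 1) ≤
    xE ^ (X.length + 1) * (xE ^ (Y.length + 1) * xE ^ (Z.length + 1)) := by
  rw [← pow_add, ← pow_add]
  refine pow_le_pow_right_of_le_one' xE_le ?_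
  unfold fw
  simp
  omega

/-- The word of a leg, in walk order. -/
private def wv (σ : Bool) (l : List Blk) : List Bool := if σ then jn l.reverse else jn l

private lemma wv_inj {σ : Bool} {l l' : List Blk} (hl : l ≠ []) (hl' : l' ≠ []) (h : wv σ l = wv σ l') : l = l' := by
  unfold wv at h
  cases σ
  · rw [if_neg (by simp), if_neg (by simp)] at h
    exact jn_inj hl hl' h
  · rw [if_pos rfl, if_pos rfl] at h
    exact List.reverse_injective (jn_inj (RI_rev hl).1 (RI_rev hl').1 h)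

private lemma RI_cut3 (σ : Bool) {M z : ℕ} (hM : z < M) {L : List Blk} (h : rtI σ M z L) : ∃ p1 p2 p3 : List Blk,
    (if σ then jn L.reverse = fw (jn p3.reverse) (fw (jn p2.reverse) (jn p1.reverse))
      else jn L = fw (jn p1) (fw (jn p2) (jn p3))) ∧ hsI.Cut3 σ M z L p1 p2 p3 := by
  obtain ⟨p1, p2, p3, n1, n2, n3, e, h1, h2, h3, h7, h4, h5, h6⟩ := cut_l σ hM h
  refine ⟨p1, p2, p3, e, ?_⟩
  have hL : L ≠ [] := by
    rintro rfl
    exact RI_nil σ M z h
  have hw : wj L ≤ wj p1 * (wj p2 * wj p3) := by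
    cases σ
    · rw [if_neg (by simp)] at e
      rw [jn_length hL, jn_length n1, jn_length n2, jn_length n3, e]
      exact RI_len _ _ _
    · rw [if_pos rfl] at e
      have hr : ∀ {l : List Blk}, l ≠ [] → wj l = xE ^ ((jn l.reverse).length + 1) := by
        intro l hl
        rw [← jn_length (RI_rev hl).1]
        exact (hsI.w_reverse l).symm
      rw [hr hL, hr n1, hr n2, hr n3, e]
      refine (RI_len _ _ _).trans (le_of_eq ?_)
      ring
  have hav : hsI.av σ p2 p1.reverse ∧ hsI.av σ p3 p2.reverse := by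
    cases σ
    · rw [if_neg (by simp)] at e
      have hN := (jn_Br hL).1.1
      rw [e] at hN
      obtain ⟨k1, k2⟩ := RI_two (jn_Br n1) (jn_Br n2) hN
      refine ⟨Or.inr (Or.inr ?_), Or.inr (Or.inr ?_)⟩
      · rw [List.reverse_reverse]; exact k1
      · rw [List.reverse_reverse]; exact k2
    · rw [if_pos rfl] at e
      have hN := (jn_Br (RI_rev hL).1).1.1
      rw [e] at hN
      obtain ⟨k1, k2⟩ := RI_two (jn_Br (RI_rev n3).1) (jn_Br (RI_rev n2).1) hN
      exact ⟨Or.inr (Or.inr k2), Or.inr (Or.inr k1)⟩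
  exact ⟨hav.1, hav.2, h1, h2, h3, h7, hj_pos n2, h4, h5, hw, h6⟩

/-- The cut of the returning legs. -/
lemma rtI_cut (σ : Bool) (M z : ℕ) (hM : z < M) : ∃ φ : List Blk → List Blk × List Blk × List Blk,
    Set.InjOn φ {L | rtI σ M z L} ∧ ∀ L, rtI σ M z L → hsI.Cut3 σ M z L (φ L).1 (φ L).2.1 (φ L).2.2 := by
  classical
  have hex : ∀ L : List Blk, ∃ q : List Blk × List Blk × List Blk, rtI σ M z L →
      ((if σ then jn L.reverse = fw (jn q.2.2.reverse) (fw (jn q.2.1.reverse) (jn q.1.reverse))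
        else jn L = fw (jn q.1) (fw (jn q.2.1) (jn q.2.2))) ∧ hsI.Cut3 σ M z L q.1 q.2.1 q.2.2) := by
    intro L
    by_cases hL : rtI σ M z L
    · obtain ⟨p1, p2, p3, e, h⟩ := RI_cut3 σ hM hL
      exact ⟨(p1, p2, p3), fun _ => ⟨e, h⟩⟩
    · exact ⟨([], [], []), fun h => absurd h hL⟩
  choose φ hφ using hex
  refine ⟨φ, ?_, fun L hL => (hφ L hL).2⟩
  intro L hL L' hL' he
  have h1 := (hφ L hL).1
  have h2 := (hφ L' hL').1
  rw [← he] at h2
  have n1 : L ≠ [] := by
    rintro rfl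
    exact RI_nil σ M z hL
  have n2 : L' ≠ [] := by
    rintro rfl
    exact RI_nil σ M z hL'
  refine wv_inj (σ := σ) n1 n2 ?_
  unfold wv
  cases σ
  · rw [if_neg (by simp)] at h1 h2 ⊢
    rw [if_neg (by simp), h1, h2]
  · rw [if_pos rfl] at h1 h2 ⊢
    rw [if_pos rfl, h1, h2]

/-- THE RETURNS OF THE LEGS OF THE HONEYCOMB LATTICE. -/
def hsI_R : hsI.Rts where
  rt := rtI
  mono := rtI_mono
  top := rtI_top
  pre := rtI_pre
  shf := rtI_shf
  os := rtI_os
  cut := rtI_cut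

end Pool.Agent.HEP
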