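import Pool.Agent.GAP.Alph

/-!
Project PLZ (MP_8c6f77_pr, polynomial bound, ROUTE A): RETURNS OF A LEG. Abstract interface between the geometry and the return estimates
(PLY/R2, notes 3092, 3094). `σ = true`: the leg is leg 1 (older), `σ = false`: leg 2 (younger), as for the LONG leg in HEP/Alph.

* The columns of a leg are counted from the fold: `0, 1, .., h l - 1`. `rt σ M z l` (for `z < M`): read from the fold outward, the leg `l`
  has a vertex in a column `≥ M` which is followed by a vertex in a column `≤ z`.
* `os`: a leg without return is one-sided at the renewals of the other leg below `z` (the other leg has height `≥ M + 1`; no relation between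
  the heights of the legs).
* `cut`: for fixed `σ, M, z` the returning legs `L` are mapped injectively to triples `(p1, p2, p3)`, three legs in the order from the fold
  outward: `p1` = from the fold to the tip `a` (last highest point before `b`; read from the fold), `p2` = from `a` back to `b` (last lowest point
  after the first column `≥ M`; read from `a`), `p3` = from `b` outward (read from `b`). At the fold `a` the legs are `p2` and `p1.reverse`, at the fold `b` they
  are `p3` and `p2.reverse`; `p3` resp. `p2` is on the same side (leg 1 / leg 2) as `L`. Heights: `h a = h p1 ≥ M`, level of `b` =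
  `h p1 - h p2 ∈ [0, z + 1]` (`≥ 1` if `σ = false`), `h L = h p1 - h p2 + h p3`. Renewals of `p3` above the tip `a` are renewals of `L`.
-/

namespace Pool.Agent.HEP

open scoped ENNReal

namespace Sys

variable (S : Sys)

/-- The properties of the three parts of a returning leg. -/
structure Cut3 (σ : Bool) (M z : ℕ) (L p1 p2 p3 : List S.B) : Prop where
  /-- the legs at the tip `a` do not meet -/
  av1 : S.av σ p2 p1.reverse
  /-- the legs at the lowest point `b` do not meet -/
  av2 : S.av σ p3 p2.reverse
  /-- the tip is high -/
  h1 : M ≤ S.h p1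
  /-- the lowest point is low -/
  h2 : S.h p1 ≤ S.h p2 + z + 1
  /-- the middle part is the shorter leg at the tip, so that `Gyp.pl1` (`σ = true`), `Gyp.pl2` (`σ = false`) apply to the renewals of `p1` -/
  h3 : S.h p2 + d (!σ) ≤ S.h p1
  /-- the middle part is the shorter leg at the lowest point, so that `Gyp.pl2` (`σ = true`), `Gyp.pl1` (`σ = false`) apply to the renewals of `p3` -/
  h6 : S.h p2 + d σ ≤ S.h p3
  h4 : 1 ≤ S.h p2
  /-- heights -/
  hL : S.h L + S.h p2 = S.h p1 + S.h p3
  /-- the end of the leg is at least as high as the tip -/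
  h5 : S.h p1 ≤ S.h L
  /-- masses -/
  wL : S.w L ≤ S.w p1 * (S.w p2 * S.w p3)
  /-- the renewals of `p3` above the tip are renewals of `L` -/
  ren : ∀ q r, p3 = q ++ r → S.h p2 + d σ ≤ S.h q → ∃ q' r', L = q' ++ r' ∧ S.h q' + S.h p2 = S.h p1 + S.h q

/-- Returns of the legs. -/
structure Rts where
  /-- the leg returns from a column `≥ M` to a column `≤ z` -/
  rt : Bool → ℕ → ℕ → List S.B → Prop
  /-- monotonicity -/
  mono : ∀ σ M M' z z' l, M' ≤ M → z ≤ z' → rt σ M z l → rt σ M' z' l
  /-- a leg which does not reach the column `M` -/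
  top : ∀ σ M z l, S.h l ≤ M → ¬ rt σ M z l
  /-- the part beyond a renewal above `z` does not matter -/
  pre : ∀ σ M z l r, z < M → z < S.h l → (rt σ M z (l ++ r) ↔ rt σ M z l)
  /-- the part up to a renewal `≤ z` does not matter -/
  shf : ∀ σ M z l s, z < M → S.h l ≤ z → (rt σ M z (l ++ s) ↔ rt σ (M - S.h l) (z - S.h l) s)
  /-- one-sidedness -/
  os : ∀ σ M z l s s', z < M → S.av σ l (s ++ s') → ¬ rt σ M z l → M + 1 ≤ S.h (s ++ s') → S.h s + 1 ≤ z →
    S.h s ≤ S.h l - d σ → S.os σ 1 l s
  /-- the cut -/
  cut : ∀ σ M z, z < M → ∃ φ : List S.B → List S.B × List S.B × List S.B, Set.InjOn φ {L | rt σ M z L} ∧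
    ∀ L, rt σ M z L → S.Cut3 σ M z L (φ L).1 (φ L).2.1 (φ L).2.2

end Sys

end Pool.Agent.HEP
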