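import Pool.Agent.GAP.Alph

/-!
Project PLZ (MP_8c6f77_pr, honeycomb lattice, polynomial bound): REFINED CHAINS (notes 3085, 3088; every strand is cut at its deep turning
points, seen from its inner fold; threshold = height of the first piece of the next strand). Only definitions and trivial lemmas.
Everything is stated for a system `S : Sys` (strands = words of blocks in their natural = walk order; legs = words read from the fold outward;
leg 1 = end of the older strand = `W.reverse`, leg 2 = beginning of the younger strand).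

* `Zo z l s`: THE ZONE OF A FOLD. Leg 1 `l` and leg 2 `s` (the WHOLE strands, read from the fold) do not meet, and inside the zone `z` each leg is
  one-sided at every renewal of the OTHER one, no matter which of the legs is the longer one. Together with `Gyp.res` every pair of
  parts (`l'` of `l`, `s'` of `s`, short one of height `≤ z`) is a pair `gp` of PLF/Defs (`Zo.gp_t`, `Zo.gp_f` below).
* A GROUP `(A, ps)`: one strand of the Hammersley-Welsh unfolding, cut into an odd number of strands; in walk order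
  `A = A_(m+1), B_m, A_m, .., B_1, A_1`, `ps = [(B_m, A_m), .., (B_1, A_1)]`. The `A_j` go towards the inner fold, the `B_j` back.
  Heights seen from the inner fold: `u_1 = h A_1`, `v_j = u_j - h B_j`, `u_(j+1) = v_j + h A_(j+1)`; `hg A ps = u_(m+1)` = height of the whole strand;
  `hv B A' ps = hg A' ps - h B` = the `v` of the pair `(B, A')`.
* `Grp e lo A ps` (`e` = height of the first strand of the next group, `lo = e / N`): all `u_j ≥ e + 1` (`j ≤ m + 1`), all `v_j ≤ lo + 1` (and `h B_j ≤ u_j`),
  zone of the fold between `A_(j+1)` (older) and `B_j` (younger): `lo - v_j`; zone of the fold between `B_j` (older) and `A_j` (younger): `u_j - 2 - e`.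
  (So `h A_j, h B_j ≥ e - lo`, and the zones at the two ends of a strand of height `η` have sum `≤ η - (e - lo) - 2`.)
* `Rch N e0 c`: refined chain. For two consecutive groups `(A, ps)`, `(A', ps')`, with `e = h A'`, `lo = e / N`: heights `hg A' ps' < hg A ps`, zone `lo` at the
  fold between the last strand of `(A, ps)` and `A'`; the group `(A, ps)` satisfies `Grp e lo` if `e0 ≤ e`, and `ps = []` (not cut) if `e < e0`.
  The last group is not cut.
* `rcm N e0 n`: mass of the refined chains with at most `n` columns. GEOMETRY (`PLZ/ZMain.lean`): `ms xE (SS n, length ≤ n) ≤ 3 * hsI.rcm N e0 (n + 1)`.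
-/

namespace Pool.Agent.HEP

open scoped ENNReal

namespace Sys

variable (S : Sys)

/-- The zone of a fold (leg 1 `l`, leg 2 `s`). -/
def Zo (z : ℕ) (l s : List S.B) : Prop :=
  S.Av l s ∧ (∀ s' r, s = s' ++ r → S.h s' ≤ z → S.h s' + 1 ≤ S.h l → S.os true 1 l s') ∧
    ∀ l' r, l = l' ++ r → S.h l' ≤ z → S.h l' ≤ S.h s → S.os false 1 s l'

variable {S}

lemma Zo.mono {z z' : ℕ} {l s : List S.B} (h : S.Zo z l s) (hz : z' ≤ z) : S.Zo z' l s :=
  ⟨h.1, fun s' r e h1 h2 => h.2.1 s' r e (h1.trans hz) h2, fun l' r e h1 h2 => h.2.2 l' r e (h1.trans hz) h2⟩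

variable (S)

/-- Height of a group. -/
def hg : List S.B → List (List S.B × List S.B) → ℕ
  | A, [] => S.h A
  | A, (B, A') :: ps => S.h A + (hg A' ps - S.h B)

/-- The last strand of a group. -/
def lst : List S.B → List (List S.B × List S.B) → List S.B
  | A, [] => A
  | _, (_, A') :: ps => lst A' ps

/-- The strands of a group, in walk order. -/
def sts : List S.B → List (List S.B × List S.B) → List (List S.B)
  | A, [] => [A]
  | A, (B, A') :: ps => A :: B :: sts A' ps

/-- The conditions for the inserted folds of a group. -/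
def Grp (e lo : ℕ) : List S.B → List (List S.B × List S.B) → Prop
  | A, [] => e + 1 ≤ S.h A
  | A, (B, A') :: ps => Grp e lo A' ps ∧ S.h B ≤ S.hg A' ps ∧ S.hg A' ps - S.h B ≤ lo + 1 ∧
      e + 1 ≤ S.h A + (S.hg A' ps - S.h B) ∧ S.Zo (lo - (S.hg A' ps - S.h B)) A.reverse B ∧
      S.Zo (S.hg A' ps - 2 - e) B.reverse A'

/-- Refined chains. -/
def Rch (N e0 : ℕ) : List (List S.B × List (List S.B × List S.B)) → Prop
  | [] => True
  | [g] => g.2 = []
  | g :: g' :: c => (S.hg g'.1 g'.2 < S.hg g.1 g.2 ∧ S.Zo (S.h g'.1 / N) (S.lst g.1 g.2).reverse g'.1 ∧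
      (e0 ≤ S.h g'.1 → S.Grp (S.h g'.1) (S.h g'.1 / N) g.1 g.2) ∧ (S.h g'.1 < e0 → g.2 = [])) ∧ Rch N e0 (g' :: c)

/-- Mass of the refined chains of at most `n` columns. -/
noncomputable def rcm (N e0 n : ℕ) : ℝ≥0∞ :=
  ∑' c : List (List S.B × List (List S.B × List S.B)),
    ind (S.Rch N e0 c ∧ ∀ g ∈ c, S.hg g.1 g.2 ≤ n ∧ ∀ W ∈ S.sts g.1 g.2, 1 ≤ S.h W ∧ S.h W ≤ n) *
      (c.map fun g => ((S.sts g.1 g.2).map S.w).prod).prod

variable {S}

lemma Grp.le {e lo : ℕ} {A : List S.B} {ps : List (List S.B × List S.B)} (h : S.Grp e lo A ps) :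
    e + 1 ≤ S.hg A ps := by
  cases ps with
  | nil => exact h
  | cons p ps => exact h.2.2.2.1

/-- The parts of the two legs inside the zone form a good pair, leg 1 long. -/
lemma Zo.os_t {K : ℕ} (G : S.Gyp K) {z : ℕ} {l r s s' : List S.B} (h : S.Zo z (l ++ r) (s ++ s')) (h1 : S.h s ≤ z)
    (h2 : S.h s + 1 ≤ S.h l) : S.os true 1 l s := by
  have h3 : S.os true 1 (l ++ r) s := h.2.1 s s' rfl h1 (by rw [S.h_append]; omega)
  have h4 : S.good true 1 (l ++ r) s := by
    refine ⟨?_, by rw [S.h_append, d_true]; omega, h3⟩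
    have := h.1
    exact S.Av_pre (l ++ r) [] s s' (by rwa [List.append_nil])
  exact (G.res true 1 l r s h4 (by rw [d_true]; omega)).2.2

/-- The parts of the two legs inside the zone form a good pair, leg 2 long. -/
lemma Zo.os_f {K : ℕ} (G : S.Gyp K) {z : ℕ} {l r s s' : List S.B} (h : S.Zo z (l ++ r) (s ++ s')) (h1 : S.h l ≤ z)
    (h2 : S.h l ≤ S.h s) : S.os false 1 s l := by
  have h3 : S.os false 1 (s ++ s') l := h.2.2 l r rfl h1 (by rw [S.h_append]; omega)
  have h4 : S.good false 1 (s ++ s') l := by
    refine ⟨?_, by rw [S.h_append, d_false]; omega, h3⟩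
    have := h.1
    exact S.Av_pre l r (s ++ s') [] (by rwa [List.append_nil])
  exact (G.res false 1 s s' l h4 (by rw [d_false]; omega)).2.2

end Sys

end Pool.Agent.HEP
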