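import Pool.Agent.HEP.GSide
import Pool.Agent.HEP.GPLA

/-!
Project PLZ (POLY: polynomial bound, honeycomb lattice), planarity for legs which may pass beyond the end of the other leg.

`plAz`: HEP/GPLA (`plA`) without the hypothesis that the younger leg is the longer one; the path is only the part `B` of the older leg near the
fold which stays in the columns of the younger leg (the barrier is continued by one vertex beyond the end of the younger leg).
-/

namespace Pool.Agent.HEP

open Pool.Agent.Hhelper14.SAW Pool.Agent.HHP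

/-- The last vertex of a word. -/
private lemma ZA_last (W : List Bool) : V W = (V W).dropLast ++ [E W] := by
  have h := vs_getLast? (0, 0) (1, 0) W
  have h1 : V W ≠ [] := vs_ne _ _ _
  have h2 : (V W).getLast h1 = E W := by
    have := List.getLast?_eq_getLast_of_ne_nil h1
    unfold V at this
    rw [h] at this
    exact (Option.some.inj this).symm
  conv_lhs => rw [← List.dropLast_append_getLast h1]
  rw [h2]

/-- The first vertex of a word. -/
private lemma ZA_head (W : List Bool) : V W = (0, 0) :: (V W).tail := by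
  cases W <;> rfl

private lemma ZA_F0 (q x y : ℤ × ℤ) : F0 (q - (x + y)) = F0 (q - x) - F0 y := by
  rw [F0_sub', F0_sub', F0_add]; ring

private lemma ZA_headI {l : List (ℤ × ℤ)} {x : ℤ × ℤ} (h : l.head? = some x) : l.headI = x := by
  cases l with
  | nil => simp at h
  | cons a l => simpa using h

/-- The older leg `X` is one-sided as far as its last part `B` (near the fold), which stays below the end of the younger leg. -/
theorem plAz {a c c' : ℕ} {X Y Y' : List Bool} (hX : Br a X) (hY : Br c Y) (hY' : Br c' Y')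
    {A B : List (ℤ × ℤ)} (hAB : V X = A ++ B) (hlow : ∀ x ∈ B, 3 * ((a : ℤ) - c - c' - 2) - 2 < F0 x)
    (hN : (V (fw X (Y ++ rt Y :: Y'))).Nodup)
    {z z' : ℤ × ℤ} (hz : z ∈ B) (hz' : z' ∈ B)
    (hr : F0 z = 3 * ((a : ℤ) - c - 1) - 2) (hr' : F0 z' = 3 * ((a : ℤ) - c - 1) - 2)
    (hlt : z.2 < (E (fw X Y)).2) : z'.2 < (E (fw X Y)).2 := by
  obtain ⟨v1, -, -, -⟩ := fw_V hX (Y ++ rt Y :: Y')
  obtain ⟨-, v2, -, -⟩ := fw_V hX Y
  obtain ⟨w1, -, -⟩ := app_right (Q := Y') hY.tn_rt
  have hfe := fe_F0 hX
  set q : ℤ × ℤ := fe X + (-1, 0) with hq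
  have hFq : F0 q = 3 * a - 2 := by rw [hq, F0_add, hfe]; simp [F0]; ring
  set e1 : ℤ × ℤ := q - E Y with he1
  set e2 : ℤ × ℤ := q - (E Y + (1, 0)) with he2
  have hEY := hY.2
  have hEX := hX.2
  have hF1 : F0 e1 = 3 * ((a : ℤ) - c - 1) := by rw [he1, F0_sub', hFq, hEY]; ring
  have hF2 : F0 e2 = 3 * ((a : ℤ) - c - 1) - 2 := by
    rw [he2, F0_sub', hFq, F0_add, hEY]; simp [F0]; ring
  -- the two lists
  set t : ℤ × ℤ := q - ((E Y + (1, 0)) + E Y') - (1, 0) with ht
  have hFt : F0 t = 3 * ((a : ℤ) - c - c' - 2) - 2 := by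
    have h6 : F0 (q - (E Y + (1, 0) + E Y')) = F0 e2 - F0 (E Y') := ZA_F0 _ _ _
    rw [ht, F0_sub', h6, hF2, hY'.2]
    simp only [F0]
    ring
  set A0 : List (ℤ × ℤ) := ((V Y').tail.map (fun w => q - ((E Y + (1, 0)) + w))).reverse with hA0
  set A2 : List (ℤ × ℤ) := ((V Y).dropLast.map (fun w => q - w)).reverse ++ [fe X, E X, E X + (1, 0)] with hA2
  have hT : ((E X + (1, 0)) :: E X :: fe X :: (V (Y ++ rt Y :: Y')).map (fun w => q - w)).reverse =
      A0 ++ e2 :: e1 :: A2 := by
    rw [w1, ZA_head Y', hA0, hA2, he1, he2]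
    conv_lhs => rw [ZA_last Y]
    simp only [List.map_append, List.map_cons, List.map_map, List.reverse_append, List.reverse_cons,
      List.nil_append, List.append_assoc, List.cons_append]
    congr 1
    congr 1
    simp
  have hch0 : UChain (A0 ++ e2 :: e1 :: A2) := by
    rw [← hT]
    unfold UChain
    rw [List.isChain_reverse]
    have h1 : List.IsChain (fun x y => U (x - y)) ((V (Y ++ rt Y :: Y')).map (fun w => q - w)) := by
      rw [List.isChain_map]
      refine List.IsChain.imp ?_ (uchain_V (Y ++ rt Y :: Y'))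
      intro x y h
      have : q - x - (q - y) = -(x - y) := by ring
      rw [this]
      exact h.neg
    have h2 : (V (Y ++ rt Y :: Y')).map (fun w => q - w) = q :: ((V (Y ++ rt Y :: Y')).map (fun w => q - w)).tail := by
      rw [ZA_head]
      simp
    have h3 : List.IsChain (fun x y => U (x - y))
        ((E X + (1, 0)) :: E X :: fe X :: (V (Y ++ rt Y :: Y')).map (fun w => q - w)) := by
      rw [h2] at h1 ⊢
      refine List.isChain_cons_cons.2 ⟨?_, List.isChain_cons_cons.2 ⟨?_, List.isChain_cons_cons.2 ⟨?_, h1⟩⟩⟩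
      · simp [U]
      · rw [fe_eq]
        have : E X - (E X + tn (!rt X) (Dr X)) = - tn (!rt X) (Dr X) := by ring
        rw [this]
        exact (U_tn X _).neg
      · rw [hq]
        simp [U]
    refine List.IsChain.imp ?_ h3
    intro x y h
    exact h.symm
  have hsub : ∀ x ∈ A0 ++ e2 :: e1 :: A2, x = E X + (1, 0) ∨ x = E X ∨
      x ∈ fe X :: (V (Y ++ rt Y :: Y')).map (fun w => q - w) := by
    intro x hx
    rw [← hT, List.mem_reverse, List.mem_cons, List.mem_cons] at hx
    exact hx
  have hnd := List.nodup_append.1 (v1 ▸ hN)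
  have hBne : B ≠ [] := List.ne_nil_of_mem hz
  have hlX : B = B.dropLast ++ [E X] := by
    have h8 := ZA_last X
    rw [hAB, List.dropLast_append_of_ne_nil hBne, List.append_assoc] at h8
    exact List.append_cancel_left h8
  have hBX : ∀ x ∈ B, x ∈ V X := by
    intro x hx
    rw [hAB]
    exact List.mem_append_right _ hx
  have hEXn : E X ∉ B.dropLast := by
    have := hnd.1
    rw [hAB] at this
    have h9 := (List.nodup_append.1 this).2.1
    rw [hlX, List.nodup_append] at h9
    intro h
    exact h9.2.2 _ h _ (List.mem_singleton_self _) rfl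
  have hmemB : ∀ x ∈ B.dropLast, x ∈ B := fun x hx => List.mem_of_mem_dropLast hx
  have hmemX : ∀ x ∈ B.dropLast, x ∈ V X := fun x hx => hBX x (hmemB x hx)
  have hlast : (e1 :: A2).getLast (by simp) = E X + (1, 0) := by
    rw [hA2]
    simp
  have hhead : (A0 ++ e2 :: e1 :: A2).head? = some (q - ((E Y + (1, 0)) + E Y')) := by
    have h5 : (E X + (1, 0)) :: E X :: fe X :: (V (Y ++ rt Y :: Y')).map (fun w => q - w) =
        ((E X + (1, 0)) :: E X :: fe X :: ((V Y).map (fun w => q - w) ++
          (V Y').dropLast.map (fun w => q - ((E Y + (1, 0)) + w)))) ++ [q - ((E Y + (1, 0)) + E Y')] := by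
      rw [w1]
      conv_lhs => rw [ZA_last Y']
      simp
      rfl
    rw [← hT, List.head?_reverse, h5, List.getLast?_concat]
  have hch : UChain (t :: A0 ++ e2 :: e1 :: A2) := by
    rw [List.cons_append]
    obtain ⟨y, ys, hy⟩ : ∃ y ys, A0 ++ e2 :: e1 :: A2 = y :: ys := by
      cases A0 with
      | nil => exact ⟨_, _, rfl⟩
      | cons y ys => exact ⟨_, _, rfl⟩
    rw [hy] at hch0 hhead ⊢
    have hy2 : y = q - ((E Y + (1, 0)) + E Y') := by simpa using hhead
    refine List.isChain_cons_cons.2 ⟨?_, hch0⟩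
    rw [hy2, ht]
    have : q - (E Y + (1, 0) + E Y') - (1, 0) - (q - (E Y + (1, 0) + E Y')) = -(1, 0) := by ring
    rw [this]
    exact U.neg (by simp [U])
  have hmem : ∀ x ∈ B, F0 x = 3 * ((a : ℤ) - c - 1) - 2 → x ∈ B.dropLast := by
    intro x hx hFx
    rw [hlX, List.mem_append, List.mem_singleton] at hx
    rcases hx with hx | hx
    · exact hx
    · exfalso
      rw [hx, hEX] at hFx
      omega
  have h22 : e2.2 = e1.2 := by
    rw [he2, he1]
    simp
  have key := planar (P := B.dropLast) (z := z) (z' := z') (m := (a : ℤ) - c - 1) hch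
    (by rw [he1, he2]; ring) hF2
    (by
      intro x hx
      rw [List.mem_cons] at hx
      rcases hx with rfl | hx
      · rw [hFt]; omega
      rw [hA0, List.mem_reverse, List.mem_map] at hx
      obtain ⟨w, hw, rfl⟩ := hx
      have h5 := (hY'.1.2 w (List.mem_of_mem_tail hw)).1
      have h6 : F0 (q - (E Y + (1, 0) + w)) = F0 e2 - F0 w := ZA_F0 _ _ _
      rw [h6, hF2]
      omega)
    (by
      intro x hx
      rw [hA2, List.mem_append, List.mem_reverse, List.mem_map] at hx
      rcases hx with ⟨w, hw, rfl⟩ | hx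
      · have h5 := (hY.1.2 w (List.mem_of_mem_dropLast hw)).2
        rw [F0_sub', hFq]
        omega
      · simp only [List.mem_cons, List.not_mem_nil, or_false] at hx
        rcases hx with rfl | rfl | rfl
        · rw [hfe]; omega
        · rw [hEX]; omega
        · rw [F0_add, hEX]; simp only [F0]; omega)
    (by
      have h5 := uchain_V X
      rw [hAB] at h5
      have h6 := (List.isChain_append.1 h5).2.1
      rw [hlX] at h6
      exact (List.isChain_append.1 h6).1)
    (by
      intro x hx hxB
      rw [List.cons_append, List.mem_cons] at hxB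
      rcases hxB with h5 | hxB
      · have h6 := hlow x (hmemB x hx)
        rw [h5, hFt] at h6
        omega
      rcases hsub x hxB with h5 | h5 | h5
      · have h6 := (hX.1.2 x (hmemX x hx)).2
        rw [h5, F0_add, hEX] at h6
        simp only [F0] at h6
        omega
      · exact hEXn (h5 ▸ hx)
      · exact hnd.2.2 x (hmemX x hx) x h5 rfl)
    (by
      intro x hx
      change F0 t < F0 x
      rw [hFt]
      exact hlow x (hmemB x hx))
    (by
      intro x hx
      rw [hlast]
      have h5 := (hX.1.2 x (hmemX x hx)).2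
      rw [F0_add, hEX]
      simp only [F0] at h5 ⊢
      omega)
    (hmem z hz hr) (hmem z' hz' hr') hr hr'
  rw [v2] at hlt ⊢
  rw [← h22] at hlt ⊢
  exact key hlt

end Pool.Agent.HEP
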