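import Pool.Agent.PLZ.PlA
import Pool.Agent.HEP.GPLB

/-!
Project PLZ (POLY: polynomial bound, honeycomb lattice), planarity for legs which may pass beyond the end of the other leg.

`plBz`: HEP/GPLB (`plB`) without the hypothesis that the older leg is the longer one; the path is only the part `B` of the younger leg near the
fold which stays in the columns of the older leg (without the last one).
-/

namespace Pool.Agent.HEP

open Pool.Agent.Hhelper14.SAW Pool.Agent.HHP

/-- The last vertex of a word. -/
private lemma ZB_last (W : List Bool) : V W = (V W).dropLast ++ [E W] := by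
  have h := vs_getLast? (0, 0) (1, 0) W
  have h1 : V W ≠ [] := vs_ne _ _ _
  have h2 : (V W).getLast h1 = E W := by
    have := List.getLast?_eq_getLast_of_ne_nil h1
    unfold V at this
    rw [h] at this
    exact (Option.some.inj this).symm
  conv_lhs => rw [← List.dropLast_append_getLast h1]
  rw [h2]

/-- The first vertex of a word. -/
private lemma ZB_head (W : List Bool) : V W = (0, 0) :: (V W).tail := by
  cases W <;> rfl

private lemma ZB_mem (W : List Bool) : E W ∈ V W := by
  rw [ZB_last W]
  simp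

/-- The end of the longer older leg. -/
private lemma ZB_fe {a' : ℕ} {X' X : List Bool} (hX' : Br a' X') :
    fe (X' ++ rt X' :: X) = (E X' + (1, 0)) + fe X := by
  obtain ⟨-, h2, h3⟩ := app_right (Q := X) hX'.tn_rt
  have hrt : rt (X' ++ rt X' :: X) = rt X := by
    change decide (Dr (X' ++ rt X' :: X) = (1, -1)) = decide (Dr X = (1, -1))
    rw [h3]
  rw [fe_eq, fe_eq, hrt, h2, h3, add_assoc]

/-- The younger leg `Y` is one-sided as far as its first part `B` (near the fold), which stays below the end of the older leg. -/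
theorem plBz {a a' c : ℕ} {X' X Y : List Bool} (hX' : Br a' X') (hX : Br a X) (hY : Br c Y)
    {A B : List (ℤ × ℤ)} (hBA : V Y = B ++ A) (hlow : ∀ x ∈ B, F0 x < 3 * ((a : ℤ) + a' + 1))
    (hN : (V (fw (X' ++ rt X' :: X) Y)).Nodup)
    {z z' : ℤ × ℤ} (hz : z ∈ B) (hz' : z' ∈ B) (hr : F0 z = 3 * (a : ℤ)) (hr' : F0 z' = 3 * (a : ℤ))
    (hlt : z.2 < (fe X).2) : z'.2 < (fe X).2 := by
  have hBY : ∀ x ∈ B, x ∈ V Y := by
    intro x hx
    rw [hBA]
    exact List.mem_append_left _ hx
  have hne := plB_ne hX' hX hY hN (hBY z' hz') hr'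
  have hZ := join_Br hX' hX
  obtain ⟨v1, -, -, -⟩ := fw_V hZ Y
  obtain ⟨w1, -, -⟩ := app_right (Q := X) hX'.tn_rt
  rw [v1, ZB_fe hX'] at hN
  have hnd := List.nodup_append.1 hN
  have hfe := fe_F0 hX
  have hEX := hX'.2
  set q : ℤ × ℤ := E X' + (1, 0) with hq
  set g : ℤ × ℤ := q + fe X + (-1, 0) with hg
  have hFq : F0 q = 3 * a' + 3 := by rw [hq, F0_add, hEX]; simp [F0]; ring
  have hFf : F0 (q + fe X) = 3 * a' + 3 + 3 * a := by rw [F0_add, hFq, hfe]
  have hFg : F0 g = 3 * a' + 1 + 3 * a := by rw [hg, F0_add, hFf]; simp [F0]; ring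
  have hsn : ∀ w : ℤ × ℤ, (g - w).2 = (E X').2 + (fe X).2 - w.2 := by
    intro w
    rw [hg, hq]
    simp
  -- the barrier
  set A1 : List (ℤ × ℤ) := o' :: (V X').dropLast with hA1
  set A2 : List (ℤ × ℤ) := (V X).tail.map (fun w => q + w) ++ [q + fe X] with hA2
  have hT : o' :: (V (X' ++ rt X' :: X) ++ [q + fe X]) = A1 ++ E X' :: q :: A2 := by
    rw [w1]
    conv_lhs => rw [ZB_last X', ZB_head X]
    rw [hA1, hA2]
    simp [hq]
  have hch : UChain (A1 ++ E X' :: q :: A2) := by
    rw [← hT]
    have h1 := uchain_V (X' ++ rt X' :: X)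
    have h2 : List.IsChain (fun x y => U (x - y)) (V (X' ++ rt X' :: X) ++ [q + fe X]) := by
      refine List.isChain_append.2 ⟨h1, List.isChain_singleton _, ?_⟩
      intro x hx y hy
      have h3 := vs_getLast? (0, 0) (1, 0) (X' ++ rt X' :: X)
      unfold V at hx
      rw [h3] at hx
      have h4 : E (X' ++ rt X' :: X) = x := by simpa [E] using hx
      simp only [List.head?_cons, Option.mem_def, Option.some.injEq] at hy
      rw [← h4, ← hy, ← ZB_fe hX', fe_eq]
      have h5 : ∀ p s : ℤ × ℤ, p - (p + s) = - s := by intro p s; ring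
      rw [h5]
      exact (U_tn _ _).neg
    have h3 : V (X' ++ rt X' :: X) ++ [q + fe X] =
        (0, 0) :: ((V (X' ++ rt X' :: X)).tail ++ [q + fe X]) := by
      conv_lhs => rw [ZB_head (X' ++ rt X' :: X)]
      simp
    rw [h3] at h2 ⊢
    refine List.isChain_cons_cons.2 ⟨?_, h2⟩
    simp [U, o']
  have hmemY : ∀ x ∈ B.map (fun w => g - w), ∃ w ∈ B, x = g - w ∧ F0 x = 3 * a' + 1 + 3 * a - F0 w := by
    intro x hx
    rw [List.mem_map] at hx
    obtain ⟨w, hw, rfl⟩ := hx
    exact ⟨w, hw, rfl, by rw [F0_sub', hFg]⟩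
  have hlast : (q :: A2).getLast (by simp) = q + fe X := by
    rw [hA2]
    simp
  have key := planar (P := B.map (fun w => g - w)) (z := g - z') (z' := g - z) (m := (a' : ℤ) + 1) hch
    hq (by rw [hEX]; ring)
    (by
      intro x hx
      rw [hA1, List.mem_cons] at hx
      rcases hx with rfl | hx
      · simp only [F0, o']; omega
      · have := (hX'.1.2 x (List.mem_of_mem_dropLast hx)).2
        omega)
    (by
      intro x hx
      rw [hA2, List.mem_append, List.mem_map, List.mem_singleton] at hx
      rcases hx with ⟨w, hw, rfl⟩ | rfl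
      · have := (hX.1.2 w (List.mem_of_mem_tail hw)).1
        rw [F0_add, hFq]
        omega
      · rw [hFf]; omega)
    (by
      unfold UChain
      rw [List.isChain_map]
      have h5 := uchain_V Y
      rw [hBA] at h5
      refine List.IsChain.imp ?_ (List.isChain_append.1 h5).1
      intro x y h
      have : g - x - (g - y) = -(x - y) := by ring
      rw [this]
      exact h.neg)
    (by
      intro x hx hxB
      rw [← hT, List.mem_cons, List.mem_append, List.mem_singleton] at hxB
      rcases hxB with h5 | h5 | h5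
      · obtain ⟨w, hw, -, hF⟩ := hmemY x hx
        have h6 := hlow w hw
        rw [h5] at hF
        simp only [F0, o'] at hF h6
        omega
      · obtain ⟨w, hw, h7, -⟩ := hmemY x hx
        exact hnd.2.2 x h5 x (List.mem_cons_of_mem _ (List.mem_map.2 ⟨w, hBY w hw, h7.symm⟩)) rfl
      · have h6 := hnd.2.1
        rw [List.nodup_cons] at h6
        obtain ⟨w, hw, h7, -⟩ := hmemY x hx
        exact h6.1 (h5 ▸ (List.mem_map.2 ⟨w, hBY w hw, h7.symm⟩)))
    (by
      intro x hx
      obtain ⟨w, hw, -, hF⟩ := hmemY x hx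
      have h6 := hlow w hw
      rw [hF]
      have h7 : F0 (A1 ++ E X' :: q :: A2).headI = -2 := by
        rw [hA1]
        simp [F0, o']
      rw [h7]
      omega)
    (by
      intro x hx
      rw [hlast, hFf]
      obtain ⟨w, hw, -, hF⟩ := hmemY x hx
      have h6 := (hY.1.2 w (hBY w hw)).1
      rw [hF]
      omega)
    (List.mem_map_of_mem hz') (List.mem_map_of_mem hz)
    (by rw [F0_sub', hFg, hr']; ring) (by rw [F0_sub', hFg, hr]; ring)
  by_contra hcon
  have h8 : (g - z').2 < (E X').2 := by
    rw [hsn]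
    omega
  have h9 := key h8
  rw [hsn] at h9
  omega

end Pool.Agent.HEP
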