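import Pool.Agent.PLZ.PlB
import Pool.Agent.GAP.ISys

/-!
Project PLZ (POLY: polynomial bound, honeycomb lattice), planarity in list form for legs of any relative height.

* `NR1 z e l` (leg 1): read from the fold outward, no vertex of depth `≥ e` is followed by a vertex of depth `≤ z`. `NR2 z e l`: the same for leg 2.
  Depth = column of the frame of the younger strand (`F0 / 3`; the vertex `x` of leg 1, in the frame of `X = jn l.reverse`, has `F0 = 3 (h l - 1) - 2 - F0 x`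
  in this frame).
* `pz1`: leg 1 `l` satisfies `NR1 z e l`, leg 2 `s ++ s'` has height `≥ e`, then `l` is one-sided at every renewal `s` of height `≤ z` of leg 2.
* `pz2`: leg 2 `l` satisfies `NR2 z e l`, leg 1 `s ++ s'` has height `≥ e + 1`, then `l` is one-sided at every renewal `s` of height `≤ z + 1` of leg 1.
-/

namespace Pool.Agent.HEP

open Pool.Agent.Hhelper14.SAW Pool.Agent.HHP
open scoped ENNReal

private lemma Pz_os {R : Set ℤ} {p : ℤ} (hne : R.Nonempty) (hfin : R.Finite)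
    (h : (∀ y ∈ R, y < p) ∨ (∀ y ∈ R, p < y)) : sSup R + 1 ≤ p ∨ p + 1 ≤ sInf R := by
  rcases h with h | h
  · left
    have := h _ (Int.csSup_mem hne hfin.bddAbove)
    omega
  · right
    have := h _ (Int.csInf_mem hne hfin.bddBelow)
    omega

/-- Leg 1: no return from depth `e` to depth `z`. -/
def NR1 (z e : ℕ) (l : List Blk) : Prop :=
  (V (jn l.reverse)).Pairwise fun y x => ¬ (3 * (hj l : ℤ) - 5 - F0 y ≤ 3 * (z : ℤ) + 1 ∧ 3 * (e : ℤ) ≤ 3 * (hj l : ℤ) - 5 - F0 x)

/-- Leg 2: no return from depth `e` to depth `z`. -/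
def NR2 (z e : ℕ) (l : List Blk) : Prop :=
  (V (jn l)).Pairwise fun x y => ¬ (3 * (e : ℤ) ≤ F0 x ∧ F0 y ≤ 3 * (z : ℤ) + 1)

/-- The last element with a property. -/
private lemma Pz_last {L : List (ℤ × ℤ)} (p : ℤ × ℤ → Prop) : (∀ x ∈ L, ¬ p x) ∨ ∃ A x B, L = A ++ x :: B ∧ p x ∧ ∀ y ∈ B, ¬ p y := by
  classical
  induction L with
  | nil => left; simp
  | cons a L ih =>
    rcases ih with h | ⟨A, x, B, h1, h2, h3⟩
    · by_cases ha : p a
      · right
        exact ⟨[], a, L, rfl, ha, h⟩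
      · left
        intro x hx
        rw [List.mem_cons] at hx
        rcases hx with rfl | hx
        · exact ha
        · exact h x hx
    · right
      exact ⟨a :: A, x, B, by rw [h1]; rfl, h2, h3⟩

/-- The first element with a property. -/
private lemma Pz_first {L : List (ℤ × ℤ)} (p : ℤ × ℤ → Prop) : (∀ x ∈ L, ¬ p x) ∨ ∃ A x B, L = A ++ x :: B ∧ p x ∧ ∀ y ∈ A, ¬ p y := by
  classical
  induction L with
  | nil => left; simp
  | cons a L ih =>
    by_cases ha : p a
    · right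
      exact ⟨[], a, L, rfl, ha, by simp⟩
    · rcases ih with h | ⟨A, x, B, h1, h2, h3⟩
      · left
        intro x hx
        rw [List.mem_cons] at hx
        rcases hx with rfl | hx
        · exact ha
        · exact h x hx
      · right
        refine ⟨a :: A, x, B, by rw [h1]; rfl, h2, ?_⟩
        intro y hy
        rw [List.mem_cons] at hy
        rcases hy with rfl | hy
        · exact ha
        · exact h3 y hy

/-- The part near the fold of a list (walked towards the fold) without return. -/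
private lemma Pz_part1 {L : List (ℤ × ℤ)} {p q : ℤ × ℤ → Prop} (hpq : ∀ x, ¬ (q x ∧ p x))
    (h : L.Pairwise fun y x => ¬ (q y ∧ p x)) : ∃ A B, L = A ++ B ∧ (∀ x ∈ B, ¬ p x) ∧ ∀ x ∈ L, q x → x ∈ B := by
  rcases Pz_last (L := L) p with h1 | ⟨A, x, B, rfl, h2, h3⟩
  · exact ⟨[], L, rfl, h1, fun x hx _ => hx⟩
  · refine ⟨A ++ [x], B, by simp, h3, ?_⟩
    intro y hy hq
    rw [List.mem_append, List.mem_cons] at hy
    rcases hy with hy | rfl | hy
    · exact absurd ⟨hq, h2⟩ ((List.pairwise_append.1 h).2.2 y hy x (List.mem_cons_self))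
    · exact absurd ⟨hq, h2⟩ (hpq y)
    · exact hy

/-- The part near the fold of a list (walked away from the fold) without return. -/
private lemma Pz_part2 {L : List (ℤ × ℤ)} {p q : ℤ × ℤ → Prop} (hpq : ∀ x, ¬ (p x ∧ q x))
    (h : L.Pairwise fun x y => ¬ (p x ∧ q y)) : ∃ B A, L = B ++ A ∧ (∀ x ∈ B, ¬ p x) ∧ ∀ x ∈ L, q x → x ∈ B := by
  rcases Pz_first (L := L) p with h1 | ⟨B, x, A, rfl, h2, h3⟩
  · exact ⟨L, [], by simp, h1, fun x hx _ => hx⟩
  · refine ⟨B, x :: A, rfl, h3, ?_⟩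
    intro y hy hq
    rw [List.mem_append, List.mem_cons] at hy
    rcases hy with hy | rfl | hy
    · exact hy
    · exact absurd ⟨h2, hq⟩ (hpq y)
    · exact absurd ⟨h2, hq⟩ ((List.pairwise_cons.1 (List.pairwise_append.1 h).2.1).1 y hy)

/-- Crossings of a line. -/
private lemma Pz_cross {c m : ℕ} {Y : List Bool} (hY : Br c Y) (h1 : 1 ≤ m) (h2 : m ≤ c) :
    (∃ z ∈ V Y, F0 z = 3 * (m : ℤ) - 2) ∧ ∃ z ∈ V Y, F0 z = 3 * (m : ℤ) := by
  rcases split_last (fun z => F0 z < 3 * (m : ℤ)) (W := Y) ⟨(0, 0), o_mem Y, by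
      simp only [F0]; omega⟩ with h3 | ⟨P, b, Q, rfl, h3, h4⟩
  · have := hY.2
    omega
  · have h5 := cross_right (gd_std P) h3 (not_lt.1 (h4 _ (head_mem _ _ _)))
    refine ⟨⟨E P, ?_, h5.2.1⟩, ⟨E P + tn b (Dr P), ?_, h5.2.2⟩⟩
    · rw [V_append]
      exact List.mem_append_left _ (E_mem P)
    · rw [V_append]
      exact List.mem_append_right _ (head_mem _ _ _)

private lemma Pz_ext {x y : ℤ × ℤ} (h1 : F0 x = F0 y) (h2 : x.2 = y.2) : x = y := by
  obtain ⟨a, b⟩ := x
  obtain ⟨c, d⟩ := y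
  simp only [F0] at *
  subst h2
  ext
  · simp only; omega
  · rfl

/-- The older leg is one-sided. -/
private lemma Pz_T {a c c' : ℕ} {X Y Y' : List Bool} (hX : Br a X) (hY : Br c Y) (hY' : Br c' Y')
    (hca : c + 1 ≤ a) {A B : List (ℤ × ℤ)} (hAB : V X = A ++ B) (hlow : ∀ x ∈ B, 3 * ((a : ℤ) - c - c' - 2) - 2 < F0 x)
    (hrow : ∀ x ∈ V X, F0 x = 3 * ((a : ℤ) - c - 1) - 2 → x ∈ B) (hN : (V (fw X (Y ++ rt Y :: Y'))).Nodup) :
    (∀ z, (z = o' ∨ z ∈ V X) → F0 z = 3 * ((a : ℤ) - c - 1) - 2 → z.2 < (E (fw X Y)).2) ∨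
      (∀ z, (z = o' ∨ z ∈ V X) → F0 z = 3 * ((a : ℤ) - c - 1) - 2 → (E (fw X Y)).2 < z.2) := by
  have hoF : F0 o' = -2 := by decide
  have ho2 : (o').2 = 0 := by decide
  obtain ⟨v1, -, -, -⟩ := fw_V hX (Y ++ rt Y :: Y')
  obtain ⟨-, v2, -, -⟩ := fw_V hX Y
  obtain ⟨w1, -, -⟩ := app_right (Q := Y') hY.tn_rt
  have hfe := fe_F0 hX
  have hEY := hY.2
  have hdisj : ∀ z ∈ V X, ∀ w ∈ V (Y ++ rt Y :: Y'), z ≠ fe X + (-1, 0) - w := by
    intro z hz w hw he
    rw [v1] at hN
    refine (List.nodup_append.1 hN).2.2 z hz _ (List.mem_cons_of_mem _ (List.mem_map_of_mem hw)) ?_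
    exact he
  have hF1 : F0 (E (fw X Y)) = 3 * ((a : ℤ) - c - 1) := by
    rw [v2, F0_sub, F0_add, hfe, hEY]
    simp [F0]
    ring
  rcases Nat.eq_or_lt_of_le hca with hm | hm
  · -- the row consists of `o'`
    have hrow' : ∀ z, (z = o' ∨ z ∈ V X) → F0 z = 3 * ((a : ℤ) - c - 1) - 2 → z = o' := by
      rintro z (hz | hz) hr
      · exact hz
      · have := (hX.1.2 z hz).1
        omega
    have hne : (E (fw X Y)).2 ≠ 0 := by
      intro h0
      have h1 : E (fw X Y) = (0, 0) := Pz_ext (by rw [hF1]; simp only [F0]; omega) h0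
      refine hdisj (0, 0) (o_mem X) (E Y) ?_ ?_
      · rw [w1]
        exact List.mem_append_left _ (E_mem Y)
      · rw [← h1, v2]
    rcases lt_or_gt_of_ne hne with h | h
    · right
      intro z hz hr
      rw [hrow' z hz hr, ho2]
      exact h
    · left
      intro z hz hr
      rw [hrow' z hz hr, ho2]
      exact h
  · have hin : ∀ z, (z = o' ∨ z ∈ V X) → F0 z = 3 * ((a : ℤ) - c - 1) - 2 → z ∈ V X := by
      rintro z (rfl | hz) hr
      · rw [hoF] at hr
        omega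
      · exact hz
    have hne : ∀ z ∈ V X, F0 z = 3 * ((a : ℤ) - c - 1) - 2 → z.2 ≠ (E (fw X Y)).2 := by
      intro z hz hr he
      refine hdisj z hz (E Y + (1, 0)) ?_ ?_
      · rw [w1]
        refine List.mem_append_right _ (List.mem_map.2 ⟨(0, 0), o_mem Y', ?_⟩)
        simp
      · apply Pz_ext
        · rw [hr, F0_sub, F0_add, F0_add, hfe, hEY]
          simp [F0]
          ring
        · rw [he, v2]
          simp
    by_cases hex : ∃ z, (z = o' ∨ z ∈ V X) ∧ F0 z = 3 * ((a : ℤ) - c - 1) - 2 ∧ z.2 < (E (fw X Y)).2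
    · obtain ⟨z, hz, hr, hlt⟩ := hex
      left
      intro z' hz' hr'
      exact plAz hX hY hY' hAB hlow hN (hrow z (hin z hz hr) hr) (hrow z' (hin z' hz' hr') hr') hr hr' hlt
    · right
      intro z hz hr
      have h1 := hne z (hin z hz hr) hr
      have h2 : ¬ z.2 < (E (fw X Y)).2 := fun h => hex ⟨z, hz, hr, h⟩
      omega

private lemma Pz_finT {z e : ℕ} (hze : z < e) {l t rr : List Blk} (h : AvI l (t ++ rr)) (hnr : NR1 z e l)
    (hh : e ≤ hj (t ++ rr)) (htz : hj t ≤ z) (hcut' : hj t ≤ hj l - 1) : t = [] ∨ sSup (rowT l (hj t)) + 1 ≤ hsI.x t ∨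
      hsI.x t + 1 ≤ sInf (rowT l (hj t)) := by
  by_cases ht0 : t = []
  · exact Or.inl ht0
  right
  have htp : 1 ≤ hj t := hj_pos ht0
  have hl0 : l ≠ [] := by
    rintro rfl
    rw [hj_nil] at hcut'
    omega
  have hhs := hj_append t rr
  have hr0 : rr ≠ [] := by
    intro h0
    rw [h0, hj_nil] at hhs
    rw [h0] at hh
    omega
  have hav := h
  have hN : (V (fw (jn l.reverse) (jn (t ++ rr)))).Nodup := by
    rcases hav with hav | hav | hav
    · exact absurd hav hl0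
    · exact absurd (List.append_eq_nil_iff.1 hav).1 ht0
    · exact hav
  have hlr : l.reverse ≠ [] := by simpa using hl0
  have hhr : hj l.reverse = hj l := hsI.h_reverse l
  have hX : Br (hj l - 1) (jn l.reverse) := by
    have := jn_Br hlr
    rwa [hhr] at this
  have hY := jn_Br ht0
  have hY' := jn_Br hr0
  rw [jn_append ht0 hr0] at hN
  have hrp : 1 ≤ hj rr := hj_pos hr0
  obtain ⟨A, B, hAB, hB1, hB2⟩ := Pz_part1 (L := V (jn l.reverse)) (p := fun x => 3 * (e : ℤ) ≤ 3 * (hj l : ℤ) - 5 - F0 x)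
    (q := fun x => 3 * (hj l : ℤ) - 5 - F0 x ≤ 3 * (z : ℤ) + 1) (fun x hx => by omega) hnr
  have key := Pz_T hX hY hY' (by omega) hAB (fun x hx => by have := hB1 x hx; omega)
    (fun x hx hr => hB2 x hx (by omega)) hN
  obtain ⟨-, v2, -, -⟩ := fw_V hX (jn t)
  have hfe := fe_F0 hX
  have hoF : F0 o' = -2 := by decide
  have hps : hsI.x t = (E (jn t)).2 := hsI_x_eq ht0
  rw [hps]
  apply Pz_os
  · -- nonempty
    rcases Nat.eq_or_lt_of_le hcut' with hm | hm
    · refine ⟨_, o', Or.inl rfl, ?_, rfl⟩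
      rw [F0_sub, F0_add, hfe, hoF]
      simp only [F0]
      omega
    · obtain ⟨⟨z, hz, hr⟩, -⟩ := Pz_cross (m := hj l - 1 - hj t) hX (by omega) (by omega)
      refine ⟨_, z, Or.inr hz, ?_, rfl⟩
      rw [F0_sub, F0_add, hfe, hr]
      simp only [F0]
      omega
  · refine (((List.finite_toSet (o' :: V (jn l.reverse))).image
      (fun z => (fe (jn l.reverse) + (-1, 0) - z).2))).subset ?_
    rintro y ⟨z, hz, -, rfl⟩
    refine ⟨z, ?_, rfl⟩
    rcases hz with rfl | hz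
    · exact List.mem_cons_self
    · exact List.mem_cons_of_mem _ hz
  · have hF : ∀ z : ℤ × ℤ, F0 (fe (jn l.reverse) + (-1, 0) - z) = 3 * (hj t : ℤ) →
        F0 z = 3 * (((hj l - 1 : ℕ) : ℤ) - ((hj t - 1 : ℕ) : ℤ) - 1) - 2 := by
      intro z hz
      rw [F0_sub, F0_add, hfe] at hz
      simp only [F0] at hz ⊢
      omega
    rw [v2] at key
    rcases key with key | key
    · right
      rintro y ⟨z, hz, hr, rfl⟩
      have := key z hz (hF z hr)
      simp only [Prod.snd_sub, Prod.snd_add] at this ⊢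
      omega
    · left
      rintro y ⟨z, hz, hr, rfl⟩
      have := key z hz (hF z hr)
      simp only [Prod.snd_sub, Prod.snd_add] at this ⊢
      omega

/-- Planarity, leg 1 is one-sided. -/
theorem pz1 {z e : ℕ} (hze : z < e) {l s s' : List Blk} (h : AvI l (s ++ s')) (hnr : NR1 z e l) (hh : e ≤ hj (s ++ s'))
    (hz : hj s ≤ z) (h1 : hj s + 1 ≤ hj l) : hsI.os true 1 l s :=
  Pz_finT hze h hnr hh hz (Nat.le_sub_one_of_lt h1)

private lemma Pz_finF {z e : ℕ} (hze : z < e) {l t rr : List Blk} (h : AvI (t ++ rr) l) (hnr : NR2 z e l)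
    (hh : e + 1 ≤ hj (t ++ rr)) (htz : hj t ≤ z + 1) (hcut' : hj t ≤ hj l) : t = [] ∨ sSup (rowF l (hj t)) + 1 ≤ hsI.p1 t ∨
      hsI.p1 t + 1 ≤ sInf (rowF l (hj t)) := by
  by_cases ht0 : t = []
  · exact Or.inl ht0
  right
  have htp : 1 ≤ hj t := hj_pos ht0
  have hl0 : l ≠ [] := by
    rintro rfl
    rw [hj_nil] at hcut'
    omega
  have hhs := hj_append t rr
  have hr0 : rr ≠ [] := by
    intro h0
    rw [h0, hj_nil] at hhs
    rw [h0] at hh
    omega
  have hav := h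
  have hN : (V (fw (jn (t ++ rr).reverse) (jn l))).Nodup := by
    rcases hav with hav | hav | hav
    · exact absurd (List.append_eq_nil_iff.1 hav).1 ht0
    · exact absurd hav hl0
    · exact hav
  have htr : t.reverse ≠ [] := by simpa using ht0
  have hrv : rr.reverse ≠ [] := by simpa using hr0
  have hht : hj t.reverse = hj t := hsI.h_reverse t
  have hhr : hj rr.reverse = hj rr := hsI.h_reverse rr
  have hX : Br (hj t - 1) (jn t.reverse) := by
    have := jn_Br htr
    rwa [hht] at this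
  have hX' : Br (hj rr - 1) (jn rr.reverse) := by
    have := jn_Br hrv
    rwa [hhr] at this
  have hY := jn_Br hl0
  rw [List.reverse_append, jn_append hrv htr] at hN
  have hrp : 1 ≤ hj rr := hj_pos hr0
  have hps : hsI.p1 t = (fe (jn t.reverse)).2 := hsI_p1 ht0
  rw [hps]
  apply Pz_os
  · rcases Nat.eq_or_lt_of_le htp with hm | hm
    · refine ⟨_, (0, 0), o_mem _, ?_, rfl⟩
      simp only [F0]
      omega
    · obtain ⟨-, z, hz, hr⟩ := Pz_cross (m := hj t - 1) hY (by omega) (by omega)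
      refine ⟨_, z, hz, ?_, rfl⟩
      rw [hr]
      omega
  · refine (((List.finite_toSet (V (jn l))).image (fun z => z.2))).subset ?_
    rintro y ⟨z, hz, -, rfl⟩
    exact ⟨z, hz, rfl⟩
  · obtain ⟨B, A, hBA, hB1, hB2⟩ := Pz_part2 (L := V (jn l)) (p := fun x => 3 * (e : ℤ) ≤ F0 x)
      (q := fun x => F0 x ≤ 3 * (z : ℤ) + 1) (fun x hx => by omega) hnr
    have hF : ∀ z : ℤ × ℤ, F0 z = 3 * (hj t : ℤ) - 3 → F0 z = 3 * ((hj t - 1 : ℕ) : ℤ) := by
      intro z hz
      omega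
    by_cases hex : ∃ z ∈ V (jn l), F0 z = 3 * (hj t : ℤ) - 3 ∧ z.2 < (fe (jn t.reverse)).2
    · obtain ⟨z, hz, hr, hlt⟩ := hex
      left
      rintro y ⟨z', hz', hr', rfl⟩
      exact plBz hX' hX hY hBA (fun x hx => by have := hB1 x hx; omega) hN (hB2 z hz (by omega))
        (hB2 z' hz' (by omega)) (hF z hr) (hF z' hr') hlt
    · right
      rintro y ⟨z, hz, hr, rfl⟩
      have h2 := plB_ne hX' hX hY hN hz (hF z hr)
      have h3 : ¬ z.2 < (fe (jn t.reverse)).2 := fun h => hex ⟨z, hz, hr, h⟩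
      omega

/-- Planarity, leg 2 is one-sided. -/
theorem pz2 {z e : ℕ} (hze : z < e) {l s s' : List Blk} (h : AvI (s ++ s') l) (hnr : NR2 z e l) (hh : e + 1 ≤ hj (s ++ s'))
    (hz : hj s ≤ z + 1) (h1 : hj s ≤ hj l) : hsI.os false 1 l s :=
  Pz_finF hze h hnr hh hz h1

end Pool.Agent.HEP
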