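import Pool.Agent.PLZ.Rdef
import Pool.Agent.PLZ.Pz
import Pool.Agent.PLY.R2.GCut
import Pool.Agent.PLY.R2.GCutV

/-!
Project PLZ (MP_8c6f77_pr, polynomial bound, ROUTE A): THE CUT OF A RETURNING LEG, lists of blocks.

`rtI σ M z l`: the leg `l` returns (see `Rdef`). Leg 2 (`σ = false`): walk order of `jn l` = outward, column of the vertex `x` = `F0 x / 3`. Leg 1 (`σ = true`):
the walk `jn l.reverse` (in `Br (h l - 1)`) goes TOWARDS the fold, its vertex `x` is in the column `h l - 1 - F0 x / 3` counted from the fold.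

PAPER PROOF of `cut_l`. `L ≠ []` (a word without vertices of column `≥ M > z`). `σ = false`: `cut_w` (PLY/R2/GCut, helper72) for the word `jn L` in `Br (hj L - 1)`: `jn L = fw W1 (fw W2 W3)`,
`Br a W1`, `Br k W2`, `Br (n - a + k) W3` (`n = hj L - 1`); `W1 = jn p1`, `W2 = jn p2`, `W3 = jn p3` (`jn_surj`), heights `a + 1`, `k + 1`, `n - a + k + 1`.
Renewals: `p3 = q ++ r`, `r ≠ []`, `hj q ≥ k + 1`: `jn p3 = jn q ++ rt .. :: jn r` (`jn_append`), so `Ren (hj q) (jn p3)`, hence `Ren (hj q + (a - k)) (jn L)`; `ren_split` splits `jn L` there into two bridges, `jn_surj` and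
`jn_inj` give `L = q' ++ r'` with `hj q' = hj q + a - k`. `r = []`: `q' = L`, `r' = []`.
`σ = true`: `cut_v` (helper75) for the word `jn L.reverse`: `jn L.reverse = fw W3 (fw W2 W1)`, `Br b W3`, `Br k W2`, `Br (n - b + k) W1`, `W3 = jn p3.reverse` etc. (lists in walk order are the reversed
legs). Renewals: `p3 = q ++ r`, `r ≠ []`: `p3.reverse = r.reverse ++ q.reverse`, `Ren (hj r) (jn p3.reverse)`, `hj r = b + 1 - hj q`, `hj q ≥ k + 2`, so `hj r + k + 1 ≤ b`, `Ren (hj r) (jn L.reverse)`, `L.reverse = r'.reverse ++ q'.reverse`,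
`hj r' = hj r`.
-/

namespace Pool.Agent.HEP

open Pool.Agent.Hhelper14.SAW Pool.Agent.HHP
open scoped ENNReal

/-- The leg returns from a column `≥ M` to a column `≤ z`. -/
def rtI (σ : Bool) (M z : ℕ) (l : List Blk) : Prop :=
  if σ then ¬ (V (jn l.reverse)).Pairwise fun q p => ¬ (3 * ((hj l : ℤ) - 1 - z) ≤ F0 q ∧ F0 p ≤ 3 * ((hj l : ℤ) - 1 - M) + 1)
  else ¬ (V (jn l)).Pairwise fun p q => ¬ (3 * (M : ℤ) ≤ F0 p ∧ F0 q ≤ 3 * (z : ℤ) + 1)

private lemma RCut_hj_rev (l : List Blk) : hj l.reverse = hj l := by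
  unfold hj
  rw [List.map_reverse, List.sum_reverse]

/-- The renewal between two lists. -/
private lemma RCut_ren {q r : List Blk} (hq : q ≠ []) (hr : r ≠ []) : Ren (hj q) (jn (q ++ r)) := by
  rw [jn_append hq hr]
  have h := (join (jn_Br hq) (jn_Br hr).1).2
  have h1 := hj_pos hq
  rwa [Nat.sub_add_cancel h1] at h

/-- A renewal of the word is a renewal of the list. -/
private lemma RCut_split {L : List Blk} (hL : L ≠ []) {i : ℕ} (h1 : 1 ≤ i) (h2 : i + 1 ≤ hj L) (h : Ren i (jn L)) :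
    ∃ u v : List Blk, u ≠ [] ∧ v ≠ [] ∧ L = u ++ v ∧ hj u = i ∧ hj u + hj v = hj L := by
  obtain ⟨P, Q, hPQ, hP, hQ⟩ := ren_split (jn_Br hL).1 h1 (by omega) h
  have hQB : Br (hj L - 1 - i) Q := by
    refine ⟨hQ, ?_⟩
    have h4 := (jn_Br hL).2
    rw [hPQ, (app_right hP.tn_rt).2.1, F0_add, F0_add, hP.2] at h4
    have e1 : ((i - 1 : ℕ) : ℤ) = (i : ℤ) - 1 := by omega
    have e2 : ((hj L - 1 - i : ℕ) : ℤ) = ((hj L - 1 : ℕ) : ℤ) - i := by omega
    have e3 : F0 ((1 : ℤ), (0 : ℤ)) = 2 := by simp [F0]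
    rw [e1, e3] at h4
    rw [e2]
    linarith
  obtain ⟨u, hu, hu1, hu2⟩ := jn_surj hP
  obtain ⟨v, hv, hv1, hv2⟩ := jn_surj hQB
  refine ⟨u, v, hu, hv, ?_, by omega, by omega⟩
  refine jn_inj hL (by simp [hu]) ?_
  rw [jn_append hu hv, hu1, hv1, hPQ]

/-- The cut of a returning leg. -/
theorem cut_l (σ : Bool) {M z : ℕ} (hM : z < M) {L : List Blk} (h : rtI σ M z L) : ∃ p1 p2 p3 : List Blk,
    p1 ≠ [] ∧ p2 ≠ [] ∧ p3 ≠ [] ∧
    (if σ then jn L.reverse = fw (jn p3.reverse) (fw (jn p2.reverse) (jn p1.reverse))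
      else jn L = fw (jn p1) (fw (jn p2) (jn p3))) ∧
    M ≤ hj p1 ∧ hj p1 ≤ hj p2 + z + 1 ∧ hj p2 + Sys.d (!σ) ≤ hj p1 ∧ hj p2 + Sys.d σ ≤ hj p3 ∧
    hj L + hj p2 = hj p1 + hj p3 ∧ hj p1 ≤ hj L ∧
    ∀ q r, p3 = q ++ r → hj p2 + Sys.d σ ≤ hj q → ∃ q' r', L = q' ++ r' ∧ hj q' + hj p2 = hj p1 + hj q := by
  by_cases hL0 : L = []
  · exfalso
    subst hL0
    unfold rtI at h
    have e1 : V (jn ([] : List Blk)) = [(0, 0)] := rfl
    split_ifs at h with hs
    · rw [List.reverse_nil, e1] at h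
      exact h (List.pairwise_singleton _ _)
    · rw [e1] at h
      exact h (List.pairwise_singleton _ _)
  have hLp := hj_pos hL0
  cases σ with
  | false =>
    have h' : ¬ (V (jn L)).Pairwise fun p q => ¬ (3 * (M : ℤ) ≤ F0 p ∧ F0 q ≤ 3 * (z : ℤ) + 1) := by
      simpa [rtI] using h
    obtain ⟨a, k, W1, W2, W3, hW, hW1, hW2, hW3, c1, c2, c3, c4, hren⟩ := cut_w (jn_Br hL0) hM h'
    obtain ⟨p1, hp1, e1, g1⟩ := jn_surj hW1
    obtain ⟨p2, hp2, e2, g2⟩ := jn_surj hW2
    obtain ⟨p3, hp3, e3, g3⟩ := jn_surj hW3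
    refine ⟨p1, p2, p3, hp1, hp2, hp3, ?_, by omega, by omega, by simp [Sys.d]; omega, by simp [Sys.d]; omega,
      by omega, by omega, ?_⟩
    · rw [if_neg (by simp), e1, e2, e3, hW]
    · intro q r hqr hq
      simp [Sys.d] at hq
      by_cases hr : r = []
      · subst hr
        rw [List.append_nil] at hqr
        refine ⟨L, [], by simp, ?_⟩
        rw [← hqr]
        omega
      · have hq0 : q ≠ [] := by
          rintro rfl
          rw [hj_nil] at hq
          omega
        have hrp := hj_pos hr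
        have hsum : hj p3 = hj q + hj r := by rw [hqr, hj_append]
        have r1 : Ren (hj q) W3 := by
          rw [← e3, hqr]
          exact RCut_ren hq0 hr
        have r2 := hren (hj q) (by omega) r1
        obtain ⟨u, v, -, -, h1, h2, -⟩ := RCut_split hL0 (i := hj q + (a - k)) (by omega) (by omega) r2
        exact ⟨u, v, h1, by omega⟩
  | true =>
    have hLr : L.reverse ≠ [] := by simpa using hL0
    have hrev := RCut_hj_rev L
    have hB : Br (hj L - 1) (jn L.reverse) := by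
      have := jn_Br hLr
      rwa [hrev] at this
    have h' : ¬ (V (jn L.reverse)).Pairwise fun q p =>
        ¬ (3 * (((hj L - 1 : ℕ) : ℤ) - z) ≤ F0 q ∧ F0 p ≤ 3 * (((hj L - 1 : ℕ) : ℤ) - M) + 1) := by
      have e : ((hj L - 1 : ℕ) : ℤ) = (hj L : ℤ) - 1 := by omega
      rw [e]
      simpa [rtI] using h
    obtain ⟨b, k, W3, W2, W1, hW, hW3, hW2, hW1, c1, c2, c3, c4, hren⟩ := cut_v hB hM h'
    obtain ⟨p1, hp1, e1, g1⟩ := jn_surj hW1
    obtain ⟨p2, hp2, e2, g2⟩ := jn_surj hW2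
    obtain ⟨p3, hp3, e3, g3⟩ := jn_surj hW3
    have i1 := RCut_hj_rev p1
    have i2 := RCut_hj_rev p2
    have i3 := RCut_hj_rev p3
    refine ⟨p1.reverse, p2.reverse, p3.reverse, by simpa using hp1, by simpa using hp2, by simpa using hp3, ?_,
      by omega, by omega, by simp [Sys.d]; omega, by simp [Sys.d]; omega, by omega, by omega, ?_⟩
    · rw [if_pos rfl, List.reverse_reverse, List.reverse_reverse, List.reverse_reverse, e1, e2, e3, hW]
    · intro q r hqr hq
      simp [Sys.d] at hq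
      by_cases hr : r = []
      · subst hr
        rw [List.append_nil] at hqr
        refine ⟨L, [], by simp, ?_⟩
        rw [← hqr]
        omega
      · have hrp := hj_pos hr
        have hq0 : q ≠ [] := by
          rintro rfl
          rw [hj_nil] at hq
          omega
        have hsum : hj p3 = hj q + hj r := by rw [← i3, hqr, hj_append]
        have hp3r : p3 = r.reverse ++ q.reverse := by
          rw [← List.reverse_append, ← hqr, List.reverse_reverse]
        have r1 : Ren (hj r) W3 := by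
          rw [← e3, hp3r, ← RCut_hj_rev r]
          exact RCut_ren (by simpa using hr) (by simpa using hq0)
        have r2 := hren (hj r) hrp (by omega) r1
        obtain ⟨u, v, -, -, h1, h2, h3⟩ := RCut_split hLr hrp (by omega) r2
        refine ⟨v.reverse, u.reverse, ?_, ?_⟩
        · rw [← List.reverse_append, ← h1, List.reverse_reverse]
        · rw [RCut_hj_rev v]
          omega

end Pool.Agent.HEP
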